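import Pool.Agent.Q83.FF.Stm

/-!
# FF-CONT: continuity of sorted real roots
-/

set_option autoImplicit false

namespace Pool.Agent.Q144.FF

open Polynomial Finset Filter Topology
open Pool.Agent.Q83.FF

theorem root_bound {d : ℕ} (c : Fin d → ℝ) (B : ℝ) (hB : ∀ j < d, |(P c).coeff j| ≤ B)
    (hdeg : (P c).natDegree = d) (hmon : (P c).Monic) (i : Fin d) :
    |c i| ≤ 1 + d * B := by
  have hd : 0 < d := lt_of_le_of_lt (Nat.zero_le _) i.2
  have hB0 : 0 ≤ B := (abs_nonneg _).trans (hB 0 hd)
  by_contra hlt
  push Not at hlt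
  set x := c i with hx
  have hx1 : 1 < |x| := by
    have : (0 : ℝ) ≤ d * B := by positivity
    linarith
  have hroot : (P c).eval x = 0 := by
    unfold P
    rw [eval_prod]
    apply Finset.prod_eq_zero (Finset.mem_univ i)
    simp [hx]
  rw [Polynomial.eval_eq_sum_range, hdeg, Finset.sum_range_succ] at hroot
  have h1 : (P c).coeff d = 1 := by
    have := hmon.coeff_natDegree
    rwa [hdeg] at this
  rw [h1, one_mul] at hroot
  have h2 : |x| ^ d = |∑ k ∈ range d, (P c).coeff k * x ^ k| := by
    rw [← abs_pow]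
    have : x ^ d = -∑ k ∈ range d, (P c).coeff k * x ^ k := by linarith
    rw [this, abs_neg]
  have h3 : |∑ k ∈ range d, (P c).coeff k * x ^ k| ≤ ∑ _k ∈ range d, B * |x| ^ (d - 1) := by
    refine (Finset.abs_sum_le_sum_abs _ _).trans (Finset.sum_le_sum fun k hk => ?_)
    have hk' := Finset.mem_range.1 hk
    rw [abs_mul, abs_pow]
    exact mul_le_mul (hB k hk') (pow_le_pow_right₀ hx1.le (by omega)) (by positivity) hB0
  rw [Finset.sum_const, Finset.card_range, nsmul_eq_mul] at h3
  have h4 : |x| ^ d = |x| * |x| ^ (d - 1) := by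
    rw [← pow_succ']
    congr 1
    omega
  rw [← h2, h4, ← mul_assoc] at h3
  have h5 : 0 < |x| ^ (d - 1) := by positivity
  have h6 : |x| ≤ d * B := le_of_mul_le_mul_right h3 h5
  linarith

theorem coeff_cont (d j : ℕ) : Continuous fun c : Fin d → ℝ => (P c).coeff j := by
  have h : ∀ (s : Finset (Fin d)) (j : ℕ), Continuous fun c : Fin d → ℝ =>
      (∏ i ∈ s, (X - C (c i)) : ℝ[X]).coeff j := by
    intro s
    induction s using Finset.induction_on with
    | empty =>
      intro j
      simp only [Finset.prod_empty]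
      exact continuous_const
    | insert a s ha ih =>
      intro j
      simp only [Finset.prod_insert ha, sub_mul, coeff_sub, coeff_C_mul]
      refine Continuous.sub ?_ ((continuous_apply a).mul (ih j))
      cases j with
      | zero =>
        simp only [coeff_X_mul_zero]
        exact continuous_const
      | succ j =>
        simp only [coeff_X_mul]
        exact ih j
  exact h Finset.univ j

theorem t_cont (h_uniq : S_uniq) : S_cont := by
  obtain ⟨hu1, _, hu3, _, _, _⟩ := h_uniq
  intro T l d c c0 hmono hmono0 hcoef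
  rw [tendsto_iff_ultrafilter]
  intro u hu
  -- bounded
  have hbd : ∀ᶠ t in l, ∀ j ∈ range d, |(P (c t)).coeff j| ≤ |(P c0).coeff j| + 1 := by
    rw [Filter.eventually_all_finset]
    intro j _
    have h1 := (hcoef j).abs
    filter_upwards [h1.eventually (gt_mem_nhds (lt_add_one _))] with t ht
    exact ht.le
  set B : ℝ := ∑ j ∈ range d, (|(P c0).coeff j| + 1) with hB
  have hK : ∀ᶠ t in l, c t ∈ Metric.closedBall (0 : Fin d → ℝ) (1 + d * B) := by
    filter_upwards [hbd] with t ht
    have hB0 : 0 ≤ B := Finset.sum_nonneg fun j _ => by positivity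
    rw [mem_closedBall_zero_iff, pi_norm_le_iff_of_nonneg (by positivity)]
    intro i
    rw [Real.norm_eq_abs]
    apply root_bound (c t) B _ (hu3 d (c t)).2 (hu3 d (c t)).1 i
    intro j hj
    refine (ht j (Finset.mem_range.2 hj)).trans ?_
    exact Finset.single_le_sum (f := fun j => |(P c0).coeff j| + 1)
      (fun j _ => by positivity) (Finset.mem_range.2 hj)
  have hK' : ((u.map c : Ultrafilter (Fin d → ℝ)) : Filter (Fin d → ℝ)) ≤
      𝓟 (Metric.closedBall (0 : Fin d → ℝ) (1 + d * B)) := by
    rw [le_principal_iff]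
    exact hu hK
  obtain ⟨c1, _, hc1⟩ := (isCompact_closedBall (0 : Fin d → ℝ) (1 + d * B)).ultrafilter_le_nhds
    (u.map c) hK'
  have hc1' : Tendsto c u (𝓝 c1) := hc1
  have hm1 : Monotone c1 := by
    have hcl : IsClosed {f : Fin d → ℝ | Monotone f} := by
      have : {f : Fin d → ℝ | Monotone f} = ⋂ i : Fin d, ⋂ j : Fin d, ⋂ _ : i ≤ j,
          {f | f i ≤ f j} := by
        ext f
        simp only [Set.mem_ofPred_eq, Set.mem_iInter]
        exact ⟨fun h i j hij => h hij, fun h i j hij => h i j hij⟩
      rw [this]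
      exact isClosed_iInter fun i => isClosed_iInter fun j => isClosed_iInter fun _ =>
        isClosed_le (continuous_apply i) (continuous_apply j)
    exact hcl.mem_of_tendsto hc1' (hu hmono)
  have heq : c1 = c0 := by
    apply hu1 d c1 c0 hm1 hmono0
    ext j
    have h1 : Tendsto (fun t => (P (c t)).coeff j) u (𝓝 ((P c1).coeff j)) :=
      ((coeff_cont d j).tendsto c1).comp hc1'
    exact tendsto_nhds_unique h1 ((hcoef j).mono_left hu)
  rw [← heq]
  exact hc1'

end Pool.Agent.Q144.FF
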