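import Pool.Agent.Q83.FF.Stm

/-!
# FF-GWS: the theorem of Grace, Walsh and Szego for a half plane
-/

set_option autoImplicit false

namespace Pool.Agent.Q144.FF

open Polynomial Finset
open Pool.Agent.Q83.FF

theorem t_gws (h_polar : S_polar) : S_gws := by
  intro n
  induction n with
  | zero =>
    intro g b hg hdeg _ _
    have h1 : g = C (g.coeff 0) := Polynomial.eq_C_of_natDegree_le_zero hdeg
    have h2 : g.coeff 0 ≠ 0 := by
      intro h
      rw [h, C_0] at h1
      exact hg h1
    simpa using h2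
  | succ n ih =>
    intro g b hg hdeg hroots hb
    obtain ⟨h1, h2, h3⟩ := h_polar n g (b 0) hg hdeg hroots (hb 0)
    have h4 := ih _ (fun j => b j.succ) h1 h2 h3 fun j => hb j.succ
    set R : ℂ[X] := ∏ j : Fin n, (X - C (b j.succ)) with hR
    have hQ : (∏ j, (X - C (b j)) : ℂ[X]) = (X - C (b 0)) * R := Fin.prod_univ_succ _
    have hRdeg : R.natDegree = n := by
      rw [hR, Polynomial.natDegree_prod_of_monic _ _ fun i _ => monic_X_sub_C _]
      simp
    have hRn : R.coeff (n + 1) = 0 := Polynomial.coeff_eq_zero_of_natDegree_lt (by omega)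
    intro h0
    apply h4
    have hA : ∑ k ∈ range (n + 1), (-1 : ℂ) ^ k *
        (C ((n : ℂ) + 1) * g + (C (b 0) - X) * derivative g).coeff k * R.coeff (n - k) /
          (n.choose k : ℂ) =
        ((n : ℂ) + 1) * ∑ k ∈ range (n + 1 + 1), (-1 : ℂ) ^ k * g.coeff k *
          (∏ j, (X - C (b j)) : ℂ[X]).coeff (n + 1 - k) / ((n + 1).choose k : ℂ) := by
      have e1 : ∀ k ∈ range (n + 1 + 1), (-1 : ℂ) ^ k * g.coeff k *
          (∏ j, (X - C (b j)) : ℂ[X]).coeff (n + 1 - k) / ((n + 1).choose k : ℂ) =
          (-1 : ℂ) ^ k * g.coeff k * (if k = n + 1 then 0 else R.coeff (n - k)) /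
            ((n + 1).choose k : ℂ) -
          (-1 : ℂ) ^ k * g.coeff k * b 0 * R.coeff (n + 1 - k) / ((n + 1).choose k : ℂ) := by
        intro k hk
        have hk' := Finset.mem_range.1 hk
        have e2 : (∏ j, (X - C (b j)) : ℂ[X]).coeff (n + 1 - k) =
            (if k = n + 1 then 0 else R.coeff (n - k)) - b 0 * R.coeff (n + 1 - k) := by
          rw [hQ, sub_mul, coeff_sub, coeff_C_mul]
          congr 1
          split_ifs with h
          · rw [h, Nat.sub_self, coeff_X_mul_zero]
          · rw [show n + 1 - k = (n - k) + 1 by omega, coeff_X_mul]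
        rw [e2]
        ring
      rw [Finset.sum_congr rfl e1, Finset.sum_sub_distrib]
      rw [Finset.sum_range_succ (fun k => (-1 : ℂ) ^ k * g.coeff k *
        (if k = n + 1 then 0 else R.coeff (n - k)) / ((n + 1).choose k : ℂ)) (n + 1)]
      rw [if_pos rfl, mul_zero, zero_div, add_zero]
      rw [Finset.sum_range_succ' (fun k => (-1 : ℂ) ^ k * g.coeff k * b 0 *
        R.coeff (n + 1 - k) / ((n + 1).choose k : ℂ)) (n + 1)]
      rw [Nat.sub_zero, hRn, mul_zero, zero_div, add_zero, ← Finset.sum_sub_distrib,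
        Finset.mul_sum]
      apply Finset.sum_congr rfl
      intro k hk
      have hk' := Finset.mem_range.1 hk
      rw [if_neg (by omega), show n + 1 - (k + 1) = n - k by omega]
      have hc1 : ((n.choose k : ℕ) : ℂ) * ((n : ℂ) + 1) =
          (((n + 1).choose k : ℕ) : ℂ) * ((n : ℂ) + 1 - k) := by
        have := Nat.choose_mul_succ_eq n k
        have h5 : ((n + 1 - k : ℕ) : ℂ) = (n : ℂ) + 1 - k := by
          rw [Nat.cast_sub (by omega)]
          push_cast
          ring
        rw [← h5]
        exact_mod_cast this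
      have hc2 : ((n.choose k : ℕ) : ℂ) * ((n : ℂ) + 1) =
          (((n + 1).choose (k + 1) : ℕ) : ℂ) * ((k : ℂ) + 1) := by
        have := Nat.add_one_mul_choose_eq n k
        rw [mul_comm]
        exact_mod_cast this
      have n1 : ((n.choose k : ℕ) : ℂ) ≠ 0 := by
        exact_mod_cast (Nat.choose_pos (by omega)).ne'
      have n2 : (((n + 1).choose k : ℕ) : ℂ) ≠ 0 := by
        exact_mod_cast (Nat.choose_pos (by omega)).ne'
      have n3 : (((n + 1).choose (k + 1) : ℕ) : ℂ) ≠ 0 := by
        exact_mod_cast (Nat.choose_pos (by omega)).ne'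
      have hg1 : (C ((n : ℂ) + 1) * g + (C (b 0) - X) * derivative g).coeff k =
          ((n : ℂ) + 1 - k) * g.coeff k + b 0 * ((k : ℂ) + 1) * g.coeff (k + 1) := by
        rw [coeff_add, coeff_C_mul, sub_mul, coeff_sub, coeff_C_mul, coeff_derivative]
        cases k with
        | zero =>
          rw [coeff_X_mul_zero]
          simp
        | succ k =>
          rw [coeff_X_mul, coeff_derivative]
          push_cast
          ring
      rw [hg1]
      have d1 : ((n : ℂ) + 1 - k) / ((n.choose k : ℕ) : ℂ) =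
          ((n : ℂ) + 1) / (((n + 1).choose k : ℕ) : ℂ) := by
        rw [div_eq_div_iff n1 n2]
        linear_combination -hc1
      have d2 : ((k : ℂ) + 1) / ((n.choose k : ℕ) : ℂ) =
          ((n : ℂ) + 1) / (((n + 1).choose (k + 1) : ℕ) : ℂ) := by
        rw [div_eq_div_iff n1 n3]
        linear_combination -hc2
      calc (-1 : ℂ) ^ k * (((n : ℂ) + 1 - k) * g.coeff k + b 0 * ((k : ℂ) + 1) *
            g.coeff (k + 1)) * R.coeff (n - k) / (n.choose k : ℂ)
          = (-1 : ℂ) ^ k * R.coeff (n - k) * (g.coeff k * (((n : ℂ) + 1 - k) /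
            (n.choose k : ℂ)) + b 0 * g.coeff (k + 1) * (((k : ℂ) + 1) /
            (n.choose k : ℂ))) := by ring
        _ = (-1 : ℂ) ^ k * R.coeff (n - k) * (g.coeff k * (((n : ℂ) + 1) /
            ((n + 1).choose k : ℂ)) + b 0 * g.coeff (k + 1) * (((n : ℂ) + 1) /
            ((n + 1).choose (k + 1) : ℂ))) := by rw [d1, d2]
        _ = _ := by
            rw [pow_succ]
            ring
    rw [hA, h0, mul_zero]

end Pool.Agent.Q144.FF
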