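import Pool.Agent.Q83.FF.Stm

/-!
# FF-POLAR: Laguerre's theorem for the upper half plane
-/

set_option autoImplicit false

namespace Pool.Agent.Q144.FF

open Polynomial Finset
open Pool.Agent.Q83.FF

/-- a multiset as a finite family -/
theorem ms_fin {A : Type} (s : Multiset A) : ∃ (m : ℕ) (f : Fin m → A),
    s = Multiset.map f (univ : Finset (Fin m)).val ∧ m = s.card := by
  induction s using Quotient.inductionOn with
  | h l =>
    refine ⟨l.length, fun i => l.get i, ?_, rfl⟩
    rw [Fin.univ_val_map]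
    show (l : Multiset A) = _
    have h : List.ofFn (fun i : Fin l.length => l.get i) = l := List.ofFn_get l
    exact congrArg _ h.symm

theorem polar_ne (n : ℕ) (g : ℂ[X]) (b : ℂ) (hg : g ≠ 0) (hdeg : g.natDegree ≤ n + 1)
    (hroots : ∀ z, g.IsRoot z → 0 < z.im) (hb : b.im ≤ 0) (z : ℂ) (hz : z.im ≤ 0) :
    (C ((n : ℂ) + 1) * g + (C b - X) * derivative g).eval z ≠ 0 := by
  intro h0
  have hgz : g.eval z ≠ 0 := by
    intro h
    have := hroots z h
    linarith
  obtain ⟨m, ζ, hζ, hm⟩ := ms_fin g.roots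
  have hmn : m ≤ n + 1 := by
    rw [hm]
    exact (g.card_roots').trans hdeg
  have hζim : ∀ i, 0 < (ζ i).im := by
    intro i
    apply hroots
    have h1 : ζ i ∈ g.roots := by
      rw [hζ]
      exact Multiset.mem_map_of_mem ζ (Finset.mem_univ_val i)
    exact (Polynomial.mem_roots hg).1 h1
  have h1 := (IsAlgClosed.splits g).eval_derivative_div_eval_of_ne_zero hgz
  have h2 : (g.roots.map fun w => 1 / (z - w)).sum = ∑ i, 1 / (z - ζ i) := by
    conv_lhs => rw [hζ]
    rw [Multiset.map_map]
    rfl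
  rw [h2] at h1
  set s := ∑ i, 1 / (z - ζ i) with hs
  have h3 : ((n : ℂ) + 1) + (b - z) * s = 0 := by
    rw [← h1]
    simp only [eval_add, eval_mul, eval_C, eval_sub, eval_X] at h0
    field_simp
    linear_combination h0
  have hn0 : ((n : ℂ) + 1) ≠ 0 := by exact_mod_cast Nat.succ_ne_zero n
  have hzb : z - b ≠ 0 := by
    intro h
    apply hn0
    rw [show b - z = -(z - b) by ring, h] at h3
    simpa using h3
  have h4 : s = ((n : ℂ) + 1) / (z - b) := by
    rw [eq_div_iff hzb]
    linear_combination -h3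
  have hs0 : s ≠ 0 := by
    rw [h4]
    exact div_ne_zero hn0 hzb
  have hm0 : 0 < m := by
    by_contra h
    apply hs0
    rw [hs]
    have : m = 0 := by omega
    have h5 : IsEmpty (Fin m) := by rw [this]; infer_instance
    exact Fintype.sum_empty _
  -- the inequality
  set y := -z.im with hy
  have hy0 : 0 ≤ y := by rw [hy]; linarith
  have hne : ∀ i, z - ζ i ≠ 0 := by
    intro i h
    have h5 := congrArg Complex.im h
    rw [Complex.sub_im, Complex.zero_im] at h5
    have := hζim i
    linarith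
  have him : ∀ w : ℂ, z - w ≠ 0 → (1 / (z - w)).im = (w.im + y) / Complex.normSq (z - w) := by
    intro w _
    rw [one_div, Complex.inv_im, Complex.sub_im, hy]
    congr 1
    ring
  have hnsq : ∀ w : ℂ, Complex.normSq (1 / (z - w)) = 1 / Complex.normSq (z - w) := by
    intro w
    rw [one_div, Complex.normSq_inv, one_div]
  have hlt : ∀ i, y * Complex.normSq (1 / (z - ζ i)) < (1 / (z - ζ i)).im := by
    intro i
    rw [him _ (hne i), hnsq, mul_one_div]
    have h5 : 0 < Complex.normSq (z - ζ i) := Complex.normSq_pos.2 (hne i)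
    apply div_lt_div_of_pos_right _ h5
    have := hζim i
    linarith
  have hsum : ∑ i, y * Complex.normSq (1 / (z - ζ i)) < s.im := by
    rw [hs, Complex.im_sum]
    have : Nonempty (Fin m) := ⟨⟨0, hm0⟩⟩
    exact Finset.sum_lt_sum_of_nonempty Finset.univ_nonempty fun i _ => hlt i
  have hcs : Complex.normSq s ≤ m * ∑ i, Complex.normSq (1 / (z - ζ i)) := by
    have h5 : ‖s‖ ≤ ∑ i, ‖1 / (z - ζ i)‖ := norm_sum_le _ _
    have h6 := sq_sum_le_card_mul_sum_sq (s := (Finset.univ : Finset (Fin m)))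
      (f := fun i => ‖1 / (z - ζ i)‖)
    rw [Finset.card_fin] at h6
    have h7 : Complex.normSq s ≤ (∑ i, ‖1 / (z - ζ i)‖) ^ 2 := by
      rw [Complex.normSq_eq_norm_sq]
      exact pow_le_pow_left₀ (norm_nonneg _) h5 2
    refine h7.trans (h6.trans (le_of_eq ?_))
    congr 1
    apply Finset.sum_congr rfl
    intro i _
    rw [Complex.normSq_eq_norm_sq]
  have hmR : (m : ℝ) ≤ (n : ℝ) + 1 := by exact_mod_cast hmn
  have hfin : y * Complex.normSq s < ((n : ℝ) + 1) * s.im := by
    have hS0 : 0 ≤ ∑ i, Complex.normSq (1 / (z - ζ i)) :=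
      Finset.sum_nonneg fun i _ => Complex.normSq_nonneg _
    calc y * Complex.normSq s ≤ y * (m * ∑ i, Complex.normSq (1 / (z - ζ i))) :=
          mul_le_mul_of_nonneg_left hcs hy0
      _ ≤ y * (((n : ℝ) + 1) * ∑ i, Complex.normSq (1 / (z - ζ i))) :=
          mul_le_mul_of_nonneg_left (mul_le_mul_of_nonneg_right hmR hS0) hy0
      _ = ((n : ℝ) + 1) * ∑ i, y * Complex.normSq (1 / (z - ζ i)) := by
          rw [← Finset.mul_sum]
          ring
      _ < _ := mul_lt_mul_of_pos_left hsum (by positivity)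
  have h8 : s = (((n : ℝ) + 1 : ℝ) : ℂ) * (1 / (z - b)) := by
    rw [h4]
    push_cast
    ring
  have h9 : s.im = ((n : ℝ) + 1) * ((b.im + y) / Complex.normSq (z - b)) := by
    rw [h8, Complex.im_ofReal_mul, him b hzb]
  have h10 : Complex.normSq s = ((n : ℝ) + 1) ^ 2 * (1 / Complex.normSq (z - b)) := by
    rw [h8, Complex.normSq_mul, Complex.normSq_ofReal, hnsq]
    ring
  rw [h9, h10] at hfin
  have h11 : 0 < Complex.normSq (z - b) := Complex.normSq_pos.2 hzb
  have h12 : y * (((n : ℝ) + 1) ^ 2 * (1 / Complex.normSq (z - b))) =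
      (((n : ℝ) + 1) ^ 2 / Complex.normSq (z - b)) * y := by ring
  have h13 : ((n : ℝ) + 1) * (((n : ℝ) + 1) * ((b.im + y) / Complex.normSq (z - b))) =
      (((n : ℝ) + 1) ^ 2 / Complex.normSq (z - b)) * (b.im + y) := by ring
  rw [h12, h13] at hfin
  have h14 : 0 < ((n : ℝ) + 1) ^ 2 / Complex.normSq (z - b) := by positivity
  have := lt_of_mul_lt_mul_left hfin h14.le
  linarith

theorem t_polar : S_polar := by
  intro n g b hg hdeg hroots hb
  have key := polar_ne n g b hg hdeg hroots hb
  refine ⟨?_, ?_, ?_⟩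
  · intro h0
    apply key 0 (by simp)
    rw [h0, eval_zero]
  · rw [Polynomial.natDegree_le_iff_coeff_eq_zero]
    intro N hN
    obtain ⟨k, rfl⟩ : ∃ k, N = k + 1 := ⟨N - 1, by omega⟩
    have h1 : g.coeff (k + 1 + 1) = 0 := Polynomial.coeff_eq_zero_of_natDegree_lt (by omega)
    rw [coeff_add, coeff_C_mul, sub_mul, coeff_sub, coeff_C_mul, coeff_X_mul, coeff_derivative,
      coeff_derivative, h1]
    rcases Nat.lt_or_ge n k with h | h
    · have h2 : g.coeff (k + 1) = 0 := Polynomial.coeff_eq_zero_of_natDegree_lt (by omega)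
      rw [h2]
      ring
    · have h3 : k = n := by omega
      subst h3
      ring
  · intro z hz
    by_contra h
    exact key z (not_lt.1 h) hz

end Pool.Agent.Q144.FF
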