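import Pool.Agent.Q83.FF.Stm

/-!
# FF-RR: the convolution preserves real-rootedness
-/

set_option autoImplicit false

namespace Pool.Agent.Q144.FF

open Polynomial Finset
open Pool.Agent.Q83.FF

theorem map_P {d : ℕ} (a : Fin d → ℝ) : (P a).map (algebraMap ℝ ℂ) =
    ∏ i, (X - C ((a i : ℝ) : ℂ)) := by
  unfold P
  rw [Polynomial.map_prod]
  apply Finset.prod_congr rfl
  intro i _
  simp

theorem conv_ne (h_gws : S_gws) (h_convop : S_convop) (h_uniq : S_uniq) (d : ℕ)
    (a b : Fin d → ℝ) (z : ℂ) (hz : 0 < z.im) :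
    ((conv d (P a) (P b)).map (algebraMap ℝ ℂ)).eval z ≠ 0 := by
  set pc : ℂ[X] := (P a).map (algebraMap ℝ ℂ) with hpc
  have hmon : (P a).Monic ∧ (P a).natDegree = d := h_uniq.2.2.1 d a
  have hpcm : pc.Monic := hmon.1.map _
  have hpcd : pc.natDegree = d := by
    rw [hpc, hmon.1.natDegree_map, hmon.2]
  set g : ℂ[X] := (taylor z pc).comp (C (-1) * X) with hg
  have hgev : ∀ y, g.eval y = pc.eval (z - y) := by
    intro y
    rw [hg, eval_comp, taylor_eval]
    congr 1
    simp
    ring
  have hg0 : g ≠ 0 := by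
    intro h
    apply hpcm.ne_zero
    apply Polynomial.funext
    intro w
    have h1 := hgev (z - w)
    rw [h, eval_zero, show z - (z - w) = w by ring] at h1
    rw [← h1, eval_zero]
  have hgd : g.natDegree ≤ d := by
    rw [hg, natDegree_comp, natDegree_taylor, hpcd, natDegree_C_mul_X _ (by norm_num), mul_one]
  have hroots : ∀ y, g.IsRoot y → 0 < y.im := by
    intro y hy
    have h1 : pc.eval (z - y) = 0 := by rw [← hgev]; exact hy
    rw [hpc, map_P, eval_prod, Finset.prod_eq_zero_iff] at h1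
    obtain ⟨i, _, hi⟩ := h1
    have h2 : y = z - (a i : ℂ) := by
      have : z - y - (a i : ℂ) = 0 := by simpa using hi
      linear_combination -this
    rw [h2, Complex.sub_im, Complex.ofReal_im, sub_zero]
    exact hz
  have h1 := h_gws d g (fun j => (b j : ℂ)) hg0 hgd hroots (fun j => by simp)
  rw [h_convop d (P a) (P b) hmon.2.le, Polynomial.map_sum, eval_finsetSum]
  intro h0
  apply h1
  rw [← h0]
  apply Finset.sum_congr rfl
  intro k hk
  have hk' : k ≤ d := by
    have := Finset.mem_range.1 hk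
    omega
  rw [Polynomial.map_mul, Polynomial.map_C, eval_mul, eval_C, ← Polynomial.iterate_derivative_map,
    ← hpc, ← map_P b, Polynomial.coeff_map]
  have h2 : g.coeff k = (hasseDeriv k pc).eval z * (-1) ^ k := by
    rw [hg, comp_C_mul_X_coeff, taylor_coeff]
  have h3 : (derivative^[k] pc).eval z = (k.factorial : ℂ) * (hasseDeriv k pc).eval z := by
    have h4 := congrFun (Polynomial.factorial_smul_hasseDeriv (R := ℂ) (k := k)) pc
    rw [← h4]
    simp [nsmul_eq_mul]
  have hkf : (k.factorial : ℂ) ≠ 0 := by exact_mod_cast k.factorial_ne_zero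
  have hdf : (d.factorial : ℂ) ≠ 0 := by exact_mod_cast d.factorial_ne_zero
  have hdkf : ((d - k).factorial : ℂ) ≠ 0 := by exact_mod_cast (d - k).factorial_ne_zero
  have hch : (d.choose k : ℂ) * (k.factorial : ℂ) * ((d - k).factorial : ℂ) =
      (d.factorial : ℂ) := by
    exact_mod_cast Nat.choose_mul_factorial_mul_factorial hk'
  have hch0 : (d.choose k : ℂ) ≠ 0 := by
    exact_mod_cast (Nat.choose_pos hk').ne'
  have hsq : ((-1 : ℂ) ^ k) * (-1) ^ k = 1 := by
    rw [← mul_pow]
    norm_num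
  rw [h2, h3]
  have h5 : (algebraMap ℝ ℂ) (((d - k).factorial : ℝ) / (d.factorial : ℝ) * (P b).coeff (d - k)) =
      ((d - k).factorial : ℂ) / (d.factorial : ℂ) * (algebraMap ℝ ℂ) ((P b).coeff (d - k)) := by
    rw [map_mul, map_div₀]
    simp
  rw [h5]
  generalize (algebraMap ℝ ℂ) ((P b).coeff (d - k)) = q
  generalize (hasseDeriv k pc).eval z = e
  rw [← hch]
  field_simp
  linear_combination e * q * hsq

theorem t_rr (h_gws : S_gws) (h_convop : S_convop) (h_convbasic : S_convbasic)
    (h_uniq : S_uniq) : S_rr := by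
  intro d a b
  have ha := h_uniq.2.2.1 d a
  have hb := h_uniq.2.2.1 d b
  obtain ⟨h1, h2⟩ := h_convbasic.2.2.1 d (P a) (P b) ha.1 ha.2 hb.1 hb.2
  apply h_uniq.2.2.2.1 d _ h1 h2
  intro z hz
  by_contra him
  rcases lt_or_gt_of_ne him with h | h
  · have hconj : ((conv d (P a) (P b)).map (algebraMap ℝ ℂ)).eval ((starRingEnd ℂ) z) = 0 := by
      rw [Polynomial.eval_map, ← Polynomial.aeval_def] at hz ⊢
      rw [Polynomial.aeval_conj, hz, map_zero]
    exact conv_ne h_gws h_convop h_uniq d a b _ (by rw [Complex.conj_im]; linarith) hconj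
  · exact conv_ne h_gws h_convop h_uniq d a b z h hz

end Pool.Agent.Q144.FF
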