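import Pool.Agent.Q83.FF.Stm

/-!
# FF-TRANS: translations and the discriminant
-/

set_option autoImplicit false

namespace Pool.Agent.Q144.FF

open Polynomial Finset
open Pool.Agent.Q83.FF

theorem P_add {d : ℕ} (a : Fin d → ℝ) (x : ℝ) :
    P (fun i => a i + x) = (P a).comp (X - C x) := by
  unfold P
  rw [Polynomial.prod_comp]
  apply Finset.prod_congr rfl
  intro i _
  simp only [sub_comp, X_comp, C_comp, C_add]
  ring

theorem iter_comp (p : ℝ[X]) (x : ℝ) (k : ℕ) :
    derivative^[k] (p.comp (X - C x)) = (derivative^[k] p).comp (X - C x) := by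
  induction k with
  | zero => rfl
  | succ k ih =>
    rw [Function.iterate_succ_apply', Function.iterate_succ_apply', ih, derivative_comp]
    simp

theorem conv_comp (h_convop : S_convop) (d : ℕ) (p q : ℝ[X]) (hp : p.natDegree ≤ d) (x : ℝ) :
    conv d (p.comp (X - C x)) q = (conv d p q).comp (X - C x) := by
  have hp' : (p.comp (X - C x)).natDegree ≤ d := by
    rw [natDegree_comp, natDegree_X_sub_C, mul_one]
    exact hp
  rw [h_convop d _ q hp', h_convop d p q hp, Polynomial.sum_comp]
  apply Finset.sum_congr rfl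
  intro k _
  rw [iter_comp, mul_comp, C_comp]

theorem dis_eq {d : ℕ} (a : Fin d → ℝ) : dis a = (Matrix.vandermonde a).det ^ 2 := by
  unfold dis
  rw [Matrix.det_vandermonde, ← Finset.prod_pow]
  apply Finset.prod_congr rfl
  intro i _
  rw [← Finset.prod_pow]
  apply Finset.prod_congr rfl
  intro j _
  ring

theorem pairs_card (d : ℕ) : ∑ i : Fin d, 2 * (Ioi i).card = d * (d - 1) := by
  simp only [Fin.card_Ioi]
  rw [← Finset.mul_sum, Fin.sum_univ_eq_sum_range (fun i => d - 1 - i) d,
    Finset.sum_range_reflect (fun i => i) d, mul_comm, Finset.sum_range_id_mul_two]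

theorem t_trans (h_convop : S_convop) (h_convbasic : S_convbasic) (h_uniq : S_uniq) :
    S_trans := by
  refine ⟨?_, ?_, ?_, ?_, ?_⟩
  · intro d a b c x y hc
    have ha := (h_uniq.2.2.1 d a).2.le
    have hb := (h_uniq.2.2.1 d b).2.le
    rw [P_add a x, P_add b y, P_add c (x + y), conv_comp h_convop d (P a) _ ha x,
      h_convbasic.1 d (P a) _, conv_comp h_convop d (P b) _ hb y, h_convbasic.1 d (P b) _, ← hc,
      comp_assoc]
    congr 1
    simp only [sub_comp, X_comp, C_comp, C_add]
    ring
  · intro d a x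
    unfold dis
    apply Finset.prod_congr rfl
    intro i _
    apply Finset.prod_congr rfl
    intro j _
    ring
  · intro d a t
    unfold dis
    have h1 : ∀ i : Fin d, ∏ j ∈ Ioi i, ((t • a) i - (t • a) j) ^ 2 =
        t ^ (2 * (Ioi i).card) * ∏ j ∈ Ioi i, (a i - a j) ^ 2 := by
      intro i
      rw [pow_mul, ← Finset.prod_const, ← Finset.prod_mul_distrib]
      apply Finset.prod_congr rfl
      intro j _
      simp only [Pi.smul_apply, smul_eq_mul]
      ring
    simp only [h1]
    rw [Finset.prod_mul_distrib, Finset.prod_pow_eq_pow_sum, pairs_card]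
  · intro d a s
    rw [dis_eq, dis_eq]
    have h1 : Matrix.vandermonde (a ∘ s) = (Matrix.vandermonde a).submatrix s id := by
      ext i j
      simp [Matrix.vandermonde]
    rw [h1, Matrix.det_permute, mul_pow]
    have h2 : (((Equiv.Perm.sign s : ℤˣ) : ℤ) : ℝ) ^ 2 = 1 := by
      rcases Int.units_eq_one_or (Equiv.Perm.sign s) with h | h <;> simp [h]
    rw [h2, one_mul]
  · intro d a
    rw [dis_eq, ← Matrix.det_vandermonde_ne_zero_iff]
    exact sq_pos_iff

end Pool.Agent.Q144.FF
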